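import Pool.Agent.Helper38.IA.St

/-!
# Project IA, module T1: balancing weights of a dense tripartite graph
-/

set_option autoImplicit false

namespace Pool.Agent.Helper99.IA38

open Finset Pool.Agent.Helper93.IA Pool.Agent.Helper38.IA

private lemma dlow {x y n : ℕ} (h : x + y = n) (h2 : (y : ℝ) ≤ 22 / 100 * n) :
    78 / 100 * (n : ℝ) ≤ x := by
  have : (x : ℝ) + y = n := by exact_mod_cast h
  linarith

private lemma split {ι : Type} [Fintype ι] (P : ι → Prop) [DecidablePred P] (f : ι → ℝ) :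
    ∑ y, (if P y then 1 - f y else 0)
      = ∑ y, (if P y then (1 : ℝ) else 0) - ∑ y, (if P y then f y else 0) := by
  rw [← Finset.sum_sub_distrib]
  refine Finset.sum_congr rfl fun y _ => ?_
  split_ifs <;> ring

/-- Bounds of one weight. -/
private lemma wbd (b x y : ℝ) (hb : 0 ≤ b) (hb1 : b ≤ 1 / 40) (hx : |x| ≤ 9 * b)
    (hy : |y| ≤ 9 * b) : 0 ≤ 18 * b + (1 - 18 * b) * (x - y) ∧
      18 * b + (1 - 18 * b) * (x - y) ≤ 40 * b := by
  obtain ⟨x1, x2⟩ := abs_le.mp hx
  obtain ⟨y1, y2⟩ := abs_le.mp hy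
  have h1 : 0 ≤ 1 - 18 * b := by linarith
  have h2 : (1 - 18 * b) * (x - y) ≤ (1 - 18 * b) * (18 * b) :=
    mul_le_mul_of_nonneg_left (by linarith) h1
  have h3 : (1 - 18 * b) * (-(18 * b)) ≤ (1 - 18 * b) * (x - y) :=
    mul_le_mul_of_nonneg_left (by linarith) h1
  constructor <;> nlinarith

theorem hT1 : StL1 → StL2 → StT0 → StBLN := by
  intro hL1 hL2 hT0
  intro α β γ _ _ _ _ _ _ n hn cα cβ cγ A B C b hNear hb hb1 hImb
  have hn' : (0 : ℝ) < n := by exact_mod_cast hn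
  obtain ⟨hsym, hbd, hdiag, dA, dB, dC, hbal⟩ := hT0 α β γ A B C
  obtain ⟨⟨nA1, nA2⟩, ⟨nB1, nB2⟩, nC1, nC2⟩ := hNear
  obtain ⟨iA, iB, iC⟩ := hImb
  have hcard : (Fintype.card (α ⊕ β ⊕ γ) : ℝ) = 3 * n := by
    rw [Fintype.card_sum, Fintype.card_sum, cα, cβ, cγ]
    push_cast
    ring
  have : Nonempty α := Fintype.card_pos_iff.mp (by omega)
  have hδ : (0 : ℝ) < 12 / 100 * n := by positivity
  have hdeg : ∀ v, (Fintype.card (α ⊕ β ⊕ γ) : ℝ) + 12 / 100 * n
      ≤ 2 * ∑ y, Wt A B C v y + 2 := by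
    intro v
    rw [hcard]
    rcases v with a | b' | c
    · rw [dA a]
      have h1 := dlow ((d1_add_m1 A a).trans cβ) (nA1 a (mem_univ _)).2
      have h2 := dlow ((d2_add_m2 C a).trans cγ) (nC2 a (mem_univ _)).2
      linarith
    · rw [dB b']
      have h1 := dlow ((d1_add_m1 B b').trans cγ) (nB1 b' (mem_univ _)).2
      have h2 := dlow ((d2_add_m2 A b').trans cα) (nA2 b' (mem_univ _)).2
      linarith
    · rw [dC c]
      have h1 := dlow ((d1_add_m1 C c).trans cα) (nC1 c (mem_univ _)).2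
      have h2 := dlow ((d2_add_m2 B c).trans cβ) (nB2 c (mem_univ _)).2
      linarith
  have key := fun (p : α ⊕ β ⊕ γ → ℝ) (s : ℝ) =>
    hL2 (α ⊕ β ⊕ γ) (Wt A B C) p (12 / 100 * n) s hbd hdiag hδ hdeg
  have hrig : ∀ p : α ⊕ β ⊕ γ → ℝ, (∀ v, Lap (Wt A B C) p v = 0) → ∀ v y, p v = p y := by
    intro p hp
    have hc0 : (Fintype.card (α ⊕ β ⊕ γ) : ℝ) ≠ 0 := by rw [hcard]; positivity
    set μ : ℝ := (∑ y, p y) / Fintype.card (α ⊕ β ⊕ γ) with hμ
    have hq : ∑ v, (fun v => p v - μ) v = 0 := by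
      simp only [Finset.sum_sub_distrib, Finset.sum_const, Finset.card_univ, nsmul_eq_mul]
      rw [hμ]
      field_simp
      ring
    have hL : ∀ v, |Lap (Wt A B C) (fun v => p v - μ) v| ≤ 0 := by
      intro v
      have : Lap (Wt A B C) (fun v => p v - μ) v = Lap (Wt A B C) p v := by
        unfold Lap
        refine Finset.sum_congr rfl fun y _ => ?_
        ring
      rw [this, hp v, abs_zero]
    have h0 := key _ 0 hq hL
    have hz : ∀ v, p v = μ := by
      intro v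
      have h1 : (12 / 100 * (n : ℝ)) * |p v - μ| ≤ 0 := h0 v
      have h2 : |p v - μ| ≤ 0 := by
        by_contra h
        push Not at h
        nlinarith [mul_pos hδ h]
      have h3 := abs_nonpos_iff.mp h2
      linarith
    intro v y
    rw [hz v, hz y]
  obtain ⟨p, hp0, hp⟩ := hL1 (α ⊕ β ⊕ γ) (Wt A B C)
    (Sum.elim (fun a => (d1 A a : ℝ) - d2 C a)
      (Sum.elim (fun b' => (d1 B b' : ℝ) - d2 A b') (fun c => (d1 C c : ℝ) - d2 B c)))
    hsym hrig (by
      simp only [Fintype.sum_sum_type, Sum.elim_inl, Sum.elim_inr, Finset.sum_sub_distrib,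
        sum_d1, sum_d2]
      ring)
  have hpb : ∀ v, |p v| ≤ 9 * b := by
    have h0 := key p (b * n) hp0 (by
      intro v
      rw [hp v]
      rcases v with a | b' | c
      · exact iA a
      · exact iB b'
      · exact iC c)
    intro v
    have h1 := h0 v
    have h2 : (n : ℝ) * (12 / 100 * |p v|) ≤ n * b := by linarith
    have h3 := le_of_mul_le_mul_left h2 hn'
    linarith
  obtain ⟨e1, e2, e3⟩ := hbal p (18 * b) (1 - 18 * b)
  refine ⟨fun a b' => 18 * b + (1 - 18 * b) * (p (Sum.inl a) - p (Sum.inr (Sum.inl b'))),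
    fun b' c => 18 * b + (1 - 18 * b) * (p (Sum.inr (Sum.inl b')) - p (Sum.inr (Sum.inr c))),
    fun c a => 18 * b + (1 - 18 * b) * (p (Sum.inr (Sum.inr c)) - p (Sum.inl a)),
    fun a b' => wbd b _ _ hb hb1 (hpb _) (hpb _), fun b' c => wbd b _ _ hb hb1 (hpb _) (hpb _),
    fun c a => wbd b _ _ hb hb1 (hpb _) (hpb _), ?_, ?_, ?_⟩
  · intro a
    have h := e1 a
    have h2 := hp (Sum.inl a)
    simp only [Sum.elim_inl] at h2
    rw [h2] at h
    rw [split (fun b' => (a, b') ∈ A), split (fun c => (c, a) ∈ C), ← d1_eq_sum, ← d2_eq_sum]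
    linarith
  · intro b'
    have h := e2 b'
    have h2 := hp (Sum.inr (Sum.inl b'))
    simp only [Sum.elim_inl, Sum.elim_inr] at h2
    rw [h2] at h
    rw [split (fun c => (b', c) ∈ B), split (fun a => (a, b') ∈ A), ← d1_eq_sum, ← d2_eq_sum]
    linarith
  · intro c
    have h := e3 c
    have h2 := hp (Sum.inr (Sum.inr c))
    simp only [Sum.elim_inr] at h2
    rw [h2] at h
    rw [split (fun a => (c, a) ∈ C), split (fun b' => (b', c) ∈ B), ← d1_eq_sum, ← d2_eq_sum]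
    linarith

end Pool.Agent.Helper99.IA38
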